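import Mathlib
import Pool.Agent.H16.Owa

set_option autoImplicit false

namespace Pool.Agent.Results.MP_57045c_lc.Exists

open Pool.Agent.H16.Owa

/-- A non-utilitarian sequential OWA rule under which free-riding is never harmful. -/
theorem result :
    ∃ α : ∀ n : ℕ, Fin n → ℝ,
      (∀ n (j : Fin n), 0 < α n j) ∧ (∃ (n : ℕ) (j l : Fin n), α n j ≠ α n l) ∧ NeverHarmful α := by
  refine ⟨α0, fun n j => ?_, ⟨2, 0, 1, by simp [α0]⟩, never⟩
  unfold α0
  split_ifs <;> norm_num

end Pool.Agent.Results.MP_57045c_lc.Exists
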